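import Pool.Agent.Y594.SU.Isol

/-!
Q2 of MP_627c93_nt for infinite sets of primes: the answer is negative, in a quantitative form.
For every finite set `F` of primes there is an infinite set `P ⊇ F` of primes such that between
any two prime powers of the semigroup generated by `P` there are many elements of the semigroup:
at least `exp (c (log x)^(1/3)) - 1`, where `x` is the smaller of the two prime powers.
-/

set_option autoImplicit false

namespace Pool.Agent.Results.MP_627c93_nt.IsolatedPrimePowers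

open Pool.Agent.H440R2

/-- For every finite set `F` of primes there is an infinite set `P` of primes containing `F` such
that, with `a` the increasing enumeration of the positive integers all of whose prime factors lie
in `P`: (1) if `i < j`, `i` is large and `a i`, `a j` are prime powers, then
`j - i ≥ exp (c (log (a i))^(1/3))`; (2) for every `K` only finitely many `i` have `a i` and one
of `a (i + 1), ..., a (i + K)` both prime powers; (3) in particular only finitely many `i` have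
`a i` and `a (i + 1)` both prime powers. -/
theorem result (F : Finset ℕ) (hF : ∀ p ∈ F, p.Prime) :
    ∃ P : Set ℕ, (∀ p ∈ P, p.Prime) ∧ P.Infinite ∧ (↑F : Set ℕ) ⊆ P ∧
      ∃ a : ℕ → ℕ, StrictMono a ∧
        Set.range a = {n : ℕ | 0 < n ∧ ∀ p : ℕ, p.Prime → p ∣ n → p ∈ P} ∧
        (∃ c : ℝ, 0 < c ∧ ∃ i₀ : ℕ, ∀ i j : ℕ, i₀ ≤ i → i < j →
          IsPrimePow (a i) → IsPrimePow (a j) →
          Real.exp (c * (Real.log (a i)) ^ (1 / 3 : ℝ)) ≤ (j : ℝ) - i) ∧
        (∀ K : ℕ, {i : ℕ | ∃ j : ℕ, i < j ∧ j ≤ i + K ∧ IsPrimePow (a i) ∧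
          IsPrimePow (a j)}.Finite) ∧
        {i : ℕ | IsPrimePow (a i) ∧ IsPrimePow (a (i + 1))}.Finite := by
  obtain ⟨P, hP, hinf, hFP, c, hc, X0, hX0⟩ := Pool.Agent.Y594.SUI.main F hF
  refine ⟨P, hP, hinf, hFP, ?_⟩
  have hset : {n : ℕ | 0 < n ∧ ∀ p : ℕ, p.Prime → p ∣ n → p ∈ P} = SU P := by
    ext n
    simp only [SU, Nat.pos_iff_ne_zero]
  have hSinf : (SU P).Infinite :=
    hinf.mono (fun p hp => SU_prime (hP p hp) hp)
  have hmono : StrictMono (Nat.nth (· ∈ SU P)) := Nat.nth_strictMono hSinf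
  have hrange : Set.range (Nat.nth (· ∈ SU P)) = SU P := Nat.range_nth_of_infinite hSinf
  have hmem : ∀ i, Nat.nth (· ∈ SU P) i ∈ SU P := Nat.nth_mem_of_infinite hSinf
  -- the quantitative statement
  have key : ∀ i j : ℕ, X0 ≤ i → i < j → IsPrimePow (Nat.nth (· ∈ SU P) i) →
      IsPrimePow (Nat.nth (· ∈ SU P) j) →
      Real.exp (c * (Real.log (Nat.nth (· ∈ SU P) i)) ^ (1 / 3 : ℝ)) ≤ (j : ℝ) - i := by
    intro i j hi hij h1 h2
    have h3 := hX0 _ (hmem i) _ (hmem j) (hi.trans hmono.le_apply) (hmono hij) h1 h2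
    have h4 : {z : ℕ | z ∈ SU P ∧ Nat.nth (· ∈ SU P) i < z ∧ z < Nat.nth (· ∈ SU P) j} =
        Nat.nth (· ∈ SU P) '' (Set.Ioo i j) := by
      ext z
      constructor
      · rintro ⟨hz, hz1, hz2⟩
        rw [← hrange] at hz
        obtain ⟨l, rfl⟩ := hz
        exact ⟨l, ⟨hmono.lt_iff_lt.mp hz1, hmono.lt_iff_lt.mp hz2⟩, rfl⟩
      · rintro ⟨l, ⟨hl1, hl2⟩, rfl⟩
        exact ⟨hmem l, hmono hl1, hmono hl2⟩
    rw [h4, Set.ncard_image_of_injective _ hmono.injective, ← Finset.coe_Ioo,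
      Set.ncard_coe_finset, Nat.card_Ioo] at h3
    refine h3.trans (le_of_eq ?_)
    rw [Nat.cast_sub (by omega), Nat.cast_sub hij.le]
    push_cast
    ring
  have key2 : ∀ K : ℕ, {i : ℕ | ∃ j : ℕ, i < j ∧ j ≤ i + K ∧
      IsPrimePow (Nat.nth (· ∈ SU P) i) ∧ IsPrimePow (Nat.nth (· ∈ SU P) j)}.Finite := by
    intro K
    have htend : Filter.Tendsto (fun i : ℕ => c * (Real.log (i : ℝ)) ^ (1 / 3 : ℝ))
        Filter.atTop Filter.atTop :=
      ((tendsto_rpow_atTop (by norm_num)).comp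
        (Real.tendsto_log_atTop.comp tendsto_natCast_atTop_atTop)).const_mul_atTop hc
    obtain ⟨i1, hi1⟩ := Filter.eventually_atTop.1 (htend.eventually_ge_atTop (K : ℝ))
    apply (Set.finite_lt_nat (max (max i1 X0) 1)).subset
    rintro i ⟨j, hij, hjK, h1, h2⟩
    show i < max (max i1 X0) 1
    by_contra hcon
    rw [not_lt] at hcon
    have g1 : i1 ≤ i := ((le_max_left _ _).trans (le_max_left _ _)).trans hcon
    have g2 : X0 ≤ i := ((le_max_right _ _).trans (le_max_left _ _)).trans hcon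
    have g3 : 1 ≤ i := (le_max_right _ _).trans hcon
    have h3 := key i j g2 hij h1 h2
    have h4 := hi1 i g1
    have h5 : Real.log (i : ℝ) ≤ Real.log (Nat.nth (· ∈ SU P) i) := by
      apply Real.log_le_log (by exact_mod_cast g3)
      exact_mod_cast hmono.le_apply
    have h6 : (0 : ℝ) ≤ Real.log (i : ℝ) := Real.log_natCast_nonneg i
    have h7 : c * (Real.log (i : ℝ)) ^ (1 / 3 : ℝ) ≤
        c * (Real.log (Nat.nth (· ∈ SU P) i)) ^ (1 / 3 : ℝ) :=
      mul_le_mul_of_nonneg_left (Real.rpow_le_rpow h6 h5 (by norm_num)) hc.le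
    have h8 := Real.add_one_le_exp (c * (Real.log (Nat.nth (· ∈ SU P) i)) ^ (1 / 3 : ℝ))
    have h9 : (j : ℝ) ≤ i + K := by exact_mod_cast hjK
    linarith
  refine ⟨Nat.nth (· ∈ SU P), hmono, ?_, ⟨c, hc, X0, key⟩, key2, ?_⟩
  · rw [hset, hrange]
  · refine (key2 1).subset ?_
    rintro i ⟨h1, h2⟩
    exact ⟨i + 1, by omega, le_rfl, h1, h2⟩

end Pool.Agent.Results.MP_627c93_nt.IsolatedPrimePowers
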